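import Pool.Agent.SKQ.Kit

/-!
# Row GLB (MP_183729_an, squad SKQ): global data of `SmallOsc` maps
-/

set_option autoImplicit false

namespace Pool.Agent.SKQ.H97

open Metric Set Filter Topology MeasureTheory
open scoped ENNReal
open Helper22QC

variable {n : ℕ}

theorem exf_apply (f : HB n) {x : E n} (hx : x ∈ closedBall (0 : E n) 1) :
    exf f x = (f ⟨x, hx⟩ : E n) := by
  unfold exf
  exact dif_pos hx

theorem continuousOn_exf (f : HB n) : ContinuousOn (exf f) (closedBall 0 1) := by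
  rw [continuousOn_iff_continuous_domRestrict]
  have h : (closedBall (0 : E n) 1).domRestrict (exf f) = fun x : closedBall (0 : E n) 1 =>
      ((f x : closedBall (0 : E n) 1) : E n) := by
    funext x
    rw [Set.domRestrict_apply]
    exact exf_apply f x.2
  rw [h]
  exact continuous_subtype_val.comp f.continuous

theorem exf_mem_ball {f : HB n} (hf : KeepsSphere f) {x : E n} (hx : x ∈ ball (0 : E n) 1) :
    exf f x ∈ ball (0 : E n) 1 := by
  have hx1 : x ∈ closedBall (0 : E n) 1 := ball_subset_closedBall hx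
  rw [exf_apply f hx1, mem_ball_zero_iff]
  refine lt_of_le_of_ne (mem_closedBall_zero_iff.1 (f ⟨x, hx1⟩).2) ?_
  intro h
  have h2 : ‖x‖ = 1 := (hf ⟨x, hx1⟩).1 h
  rw [mem_ball_zero_iff] at hx
  exact hx.ne h2

theorem keeps_symm {f : HB n} (hf : KeepsSphere f) : KeepsSphere f.symm := by
  intro z
  have h := hf (f.symm z)
  rw [f.apply_symm_apply] at h
  exact h.symm

theorem exf_exf_symm {f : HB n} {z : E n} (hz : z ∈ ball (0 : E n) 1) :
    exf f (exf f.symm z) = z := by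
  have hz1 : z ∈ closedBall (0 : E n) 1 := ball_subset_closedBall hz
  rw [exf_apply f.symm hz1, exf_apply f (f.symm ⟨z, hz1⟩).2]
  have h : f ⟨(f.symm ⟨z, hz1⟩ : E n), (f.symm ⟨z, hz1⟩).2⟩ = ⟨z, hz1⟩ := f.apply_symm_apply _
  rw [h]

theorem bijOn_exf {f : HB n} (hf : KeepsSphere f) : BijOn (exf f) (ball 0 1) (ball 0 1) := by
  refine ⟨fun x hx => exf_mem_ball hf hx, ?_, ?_⟩
  · intro x hx y hy h
    have hx1 : x ∈ closedBall (0 : E n) 1 := ball_subset_closedBall hx
    have hy1 : y ∈ closedBall (0 : E n) 1 := ball_subset_closedBall hy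
    rw [exf_apply f hx1, exf_apply f hy1] at h
    have h2 := f.injective (Subtype.ext h)
    exact congrArg Subtype.val h2
  · intro z hz
    exact ⟨exf f.symm z, exf_mem_ball (keeps_symm hf) hz, exf_exf_symm hz⟩

theorem norm_le_comp {F A : Mt n} (hA : 0 < A.det) (hA1 : ∀ v, ‖v‖ ≤ ‖A v‖) :
    ‖F‖ ≤ ‖F.comp A‖ := by
  refine ContinuousLinearMap.opNorm_le_bound _ (norm_nonneg _) (fun u => ?_)
  obtain ⟨v, rfl⟩ : ∃ v, A v = u :=
    (LinearMap.equivOfDetNeZero (A : E n →ₗ[ℝ] E n) hA.ne').surjective u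
  have h1 : ‖F (A v)‖ ≤ ‖F.comp A‖ * ‖v‖ := (F.comp A).le_opNorm v
  exact h1.trans (mul_le_mul_of_nonneg_left (hA1 v) (norm_nonneg _))

theorem glb (mol : MOLStmt) (dg1 : DG1Stmt) (dg2 : DG2Stmt) (vol : VOLStmt) (adj : ADJStmt) :
    GLBStmt := by
  intro n ε H f F t hn hε hε1 hks hw ht ht1 hloc
  have hn1 : 1 ≤ n := by omega
  obtain ⟨_, _, _, _, _, _, hdbd, _⟩ := adj n hn1
  have hqc : ∀ᵐ y, y ∈ ball (0 : E n) 1 → ‖F y‖ ^ n ≤ (2 * H ^ n) * (F y).det := by
    rw [ae_iff]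
    refine measure_null_of_locally_null _ (fun x hx => ?_)
    rw [mem_setOf_eq, Classical.not_imp] at hx
    obtain ⟨hx1, _⟩ := hx
    have hxn : ‖x‖ < 1 := mem_ball_zero_iff.1 hx1
    obtain ⟨A, ⟨_, hA1, hA2, hA3⟩, hA4⟩ := hloc x hxn
    rw [mul_one] at hA2
    refine ⟨{y | ¬ (y ∈ ball (0 : E n) 1 → ‖F y‖ ^ n ≤ (2 * H ^ n) * (F y).det)} ∩
      ball x (t * (1 - ‖x‖)), ?_, ?_⟩
    · exact inter_mem self_mem_nhdsWithin
        (mem_nhdsWithin_of_mem_nhds (ball_mem_nhds _ (mul_pos ht (by linarith))))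
    · refine measure_mono_null ?_ (ae_iff.1 hA4)
      rintro y ⟨hy1, hy2⟩ hy3
      refine hy1 (fun _ => ?_)
      have e1 := hy3 hy2
      have e2 : ((F y).comp A).det = (F y).det * A.det :=
        LinearMap.det_comp (F y : E n →ₗ[ℝ] E n) (A : E n →ₗ[ℝ] E n)
      rw [e2] at e1
      have e3 : ‖F y‖ ^ n ≤ ‖(F y).comp A‖ ^ n :=
        pow_le_pow_left₀ (norm_nonneg _) (norm_le_comp hA1 (fun v => by
          have := hA3 v
          rwa [one_mul] at this)) _
      have e4 : 0 ≤ (F y).det * A.det := by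
        have : 0 ≤ (1 + ε) * ((F y).det * A.det) :=
          (pow_nonneg (norm_nonneg _) n).trans e1
        exact nonneg_of_mul_nonneg_right this (by linarith)
      have e5 : 0 ≤ (F y).det := nonneg_of_mul_nonneg_left e4 hA1
      have e6 : A.det ≤ H ^ n := (le_abs_self _).trans ((hdbd A).trans
        (pow_le_pow_left₀ (norm_nonneg _) hA2 _))
      have e7 : (F y).det * A.det ≤ (F y).det * H ^ n := mul_le_mul_of_nonneg_left e6 e5
      have e8 : (1 + ε) * ((F y).det * A.det) ≤ 2 * ((F y).det * H ^ n) :=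
        mul_le_mul (by linarith) e7 e4 (by norm_num)
      linarith
  have hbij := bijOn_exf hks
  have hG : Glo (2 * H ^ n) (exf f) F := by
    refine ⟨mol n f F hn1 hw, hbij, ?_, hqc⟩
    have h1 : ContinuousOn (exf f.symm) (ball 0 1) :=
      (continuousOn_exf f.symm).mono ball_subset_closedBall
    refine h1.congr (fun z hz => ?_)
    have h2 : exf f.symm z ∈ ball (0 : E n) 1 := exf_mem_ball (keeps_symm hks) hz
    have h3 := hbij.injOn.leftInvOn_invFunOn h2
    rw [exf_exf_symm hz] at h3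
    exact h3
  obtain ⟨d, hd⟩ := dg1 n _ _ _ hn1 hG
  have hH0 : 0 ≤ 2 * H ^ n := by
    obtain ⟨A, ⟨_, hA1, hA2, _⟩, _⟩ := hloc 0 (by simp)
    rw [mul_one] at hA2
    have e6 : A.det ≤ H ^ n := (le_abs_self _).trans ((hdbd A).trans
      (pow_le_pow_left₀ (norm_nonneg _) hA2 _))
    linarith
  have hd1 := dg2 n _ d _ _ hn hH0 hG hd
  refine ⟨_, hG, vol n _ _ _ hn1 hG ?_⟩
  intro h hc hcs hts
  rw [hd h hc hcs hts, hd1, one_mul]

end Pool.Agent.SKQ.H97
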