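import Pool.Agent.SKQ.Kit

/-!
# Row NLD (MP_183729_an, squad SKQ)
-/

set_option autoImplicit false

namespace Pool.Agent.SKQ.H97

open Metric Set Filter Topology MeasureTheory
open scoped ENNReal
open Helper22QC

variable {n : ℕ}

/-- the standard basis vectors -/
noncomputable abbrev eb (i : Fin n) : E n := EuclideanSpace.single i 1

theorem bs_apply (i : Fin n) : bs n i = eb i := by
  simp [bs, eb]

theorem bs_repr (v : E n) (i : Fin n) : (bs n).repr v i = v i := by
  simp [bs]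

theorem det_updateRow_add_eq (A : Matrix (Fin n) (Fin n) ℝ) (t : Fin n) (l : Fin n → ℝ) :
    (A.updateRow t (A t + l)).det = A.det + ∑ i, l i * A.adjugate i t := by
  rw [Matrix.det_updateRow_add, Matrix.updateRow_eq_self]
  congr 1
  rw [Matrix.det_eq_sum_mul_adjugate_row (A.updateRow t l) t]
  refine Finset.sum_congr rfl (fun i _ => ?_)
  rw [Matrix.updateRow_self, Matrix.adjugate_apply, Matrix.adjugate_apply,
    Matrix.updateRow_idem]

/-- rank one update of the determinant -/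
theorem det_add_rank_one (N : Mt n) (l : E n →L[ℝ] ℝ) (t : Fin n) :
    (N + l.smulRight (eb t)).det = N.det + l (adjV N (eb t)) := by
  set A : Matrix (Fin n) (Fin n) ℝ :=
    LinearMap.toMatrix (bs n) (bs n) (N : E n →ₗ[ℝ] E n) with hA
  have h1 : LinearMap.toMatrix (bs n) (bs n)
      ((N + l.smulRight (eb t) : Mt n) : E n →ₗ[ℝ] E n) =
      A.updateRow t (A t + fun j => l (eb j)) := by
    ext i j
    rw [LinearMap.toMatrix_apply, bs_apply, bs_repr]
    have h2 : A i j = (N (eb j)) i := by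
      rw [hA, LinearMap.toMatrix_apply, bs_apply, bs_repr]
      rfl
    by_cases hi : i = t
    · subst hi
      rw [Matrix.updateRow_self, Pi.add_apply, h2]
      show (N (eb j) + l (eb j) • eb i) i = _
      simp [eb]
    · rw [Matrix.updateRow_ne hi, h2]
      show (N (eb j) + l (eb j) • eb t) i = _
      simp [eb, hi]
  have h2 : ∀ M : Mt n, M.det =
      (LinearMap.toMatrix (bs n) (bs n) (M : E n →ₗ[ℝ] E n)).det := by
    intro M
    rw [LinearMap.det_toMatrix]
  rw [h2, h2 N, h1, det_updateRow_add_eq]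
  congr 1
  have h3 : adjV N (eb t) = ∑ i, A.adjugate i t • eb i := by
    unfold adjV
    show Matrix.toLin (bs n) (bs n) A.adjugate (eb t) = _
    rw [← bs_apply, Matrix.toLin_self]
    simp_rw [bs_apply]
  rw [h3, map_sum]
  refine Finset.sum_congr rfl (fun i _ => ?_)
  rw [map_smul, smul_eq_mul, mul_comm]

/-- the projection to the coordinates `≥ t` -/
noncomputable def Qt (n t : ℕ) : Mt n :=
  ∑ i : Fin n, if t ≤ (i : ℕ) then (EuclideanSpace.proj i : E n →L[ℝ] ℝ).smulRight (eb i) else 0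

theorem Qt_apply (t : ℕ) (v : E n) (j : Fin n) : (Qt n t v) j = if t ≤ (j : ℕ) then v j else 0 := by
  unfold Qt
  rw [ContinuousLinearMap.sum_apply, WithLp.ofLp_sum, Finset.sum_apply,
    Finset.sum_eq_single j]
  · split_ifs with h
    · simp [eb]
    · simp
  · intro i _ hij
    split_ifs with h
    · simp [eb, hij.symm]
    · simp
  · intro h
    exact absurd (Finset.mem_univ _) h

theorem norm_Qt_le (t : ℕ) (v : E n) : ‖Qt n t v‖ ≤ ‖v‖ := by
  rw [EuclideanSpace.norm_eq, EuclideanSpace.norm_eq]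
  refine Real.sqrt_le_sqrt (Finset.sum_le_sum (fun i _ => ?_))
  rw [Qt_apply]
  split_ifs with h
  · exact le_rfl
  · rw [norm_zero, zero_pow two_ne_zero]
    positivity

theorem Qt_zero : Qt n 0 = ContinuousLinearMap.id ℝ (E n) := by
  ext v j
  rw [Qt_apply]
  simp

theorem Qt_top : Qt n n = 0 := by
  ext v j
  rw [Qt_apply, if_neg (by have := j.2; omega)]
  simp

theorem Qt_succ (t : Fin n) :
    Qt n (t : ℕ) = Qt n ((t : ℕ) + 1) + (EuclideanSpace.proj t : E n →L[ℝ] ℝ).smulRight (eb t) := by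
  ext v j
  rw [Qt_apply]
  show _ = (Qt n ((t : ℕ) + 1) v + v t • eb t) j
  rw [PiLp.add_apply, Qt_apply, PiLp.smul_apply]
  by_cases hj : j = t
  · subst hj
    simp [eb]
  · have hj' : (j : ℕ) ≠ (t : ℕ) := fun h => hj (Fin.ext h)
    have h1 : (eb t : E n) j = 0 := by simp [eb, hj]
    rw [h1, smul_zero, add_zero]
    by_cases h : (t : ℕ) ≤ (j : ℕ)
    · rw [if_pos h, if_pos (by omega)]
    · rw [if_neg h, if_neg (by omega)]

/-- the mixed map -/
noncomputable def mx (L : Mt n) (t : ℕ) (M : Mt n) : Mt n := L + (Qt n t).comp (M - L)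

theorem mx_zero (L M : Mt n) : mx L 0 M = M := by
  unfold mx
  rw [Qt_zero, ContinuousLinearMap.id_comp]
  abel

theorem mx_top (L M : Mt n) : mx L n M = L := by
  unfold mx
  rw [Qt_top, ContinuousLinearMap.zero_comp, add_zero]

theorem det_mx (L M : Mt n) (t : Fin n) :
    (mx L (t : ℕ) M).det = (mx L ((t : ℕ) + 1) M).det +
      ((M - L) (adjV (mx L ((t : ℕ) + 1) M) (eb t))) t := by
  have h : mx L (t : ℕ) M = mx L ((t : ℕ) + 1) M +
      (((EuclideanSpace.proj t : E n →L[ℝ] ℝ).comp (M - L)).smulRight (eb t)) := by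
    unfold mx
    rw [Qt_succ t, ContinuousLinearMap.add_comp, add_assoc]
    rfl
  rw [h, det_add_rank_one]
  rfl

theorem norm_mx_le (L M : Mt n) (t : ℕ) : ‖mx L t M‖ ≤ 2 * (‖M‖ + ‖L‖) := by
  unfold mx
  have h1 : ‖(Qt n t).comp (M - L)‖ ≤ ‖M - L‖ := by
    refine ContinuousLinearMap.opNorm_le_bound _ (norm_nonneg _) (fun v => ?_)
    exact (norm_Qt_le t _).trans (ContinuousLinearMap.le_opNorm _ _)
  have h2 := norm_add_le L ((Qt n t).comp (M - L))
  have h3 := norm_sub_le M L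
  have h4 := norm_nonneg M
  linarith

theorem det_sub (L M : Mt n) : M.det - L.det =
    ∑ t : Fin n, ((M - L) (adjV (mx L ((t : ℕ) + 1) M) (eb t))) t := by
  have h1 : ∑ t ∈ Finset.range n, ((mx L t M).det - (mx L (t + 1) M).det) =
      (mx L 0 M).det - (mx L n M).det := Finset.sum_range_sub' _ _
  rw [mx_zero, mx_top, Finset.sum_range] at h1
  rw [← h1]
  refine Finset.sum_congr rfl (fun t _ => ?_)
  rw [det_mx]
  ring

/-! ### The smooth case -/

theorem dv_const (v : E n) (z : E n) : dv (fun _ => v) z = 0 := by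
  unfold dv
  simp

theorem smooth_case (nlf : NLFStmt) {C : ℝ} (hC : 0 < C)
    (hadj : Continuous (fun M : Mt n => adjV M))
    (hbd : ∀ M : Mt n, ‖adjV M‖ ≤ C * ‖M‖ ^ (n - 1)) (hn : 1 ≤ n)
    {S : Set (E n)} {f : E n → E n} {φ : E n → ℝ} {L : Mt n} {a : E n} {δ D : ℝ}
    (hf : ContDiff ℝ (⊤ : ℕ∞) f) (hS : IsCompact S) (hφ : ContDiff ℝ (⊤ : ℕ∞) φ)
    (hφS : tsupport φ ⊆ S) (hD : ∀ y, ‖fderiv ℝ φ y‖ ≤ D) (hδ : ∀ y ∈ S, ‖f y - a - L y‖ ≤ δ)
    (hδ0 : 0 ≤ δ) :
    |∫ y in S, φ y * ((fderiv ℝ f y).det - L.det)| ≤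
      (n * (C * 2 ^ (n - 1))) * δ * D * ∫ y in S, (‖fderiv ℝ f y‖ + ‖L‖) ^ (n - 1) := by
  have hD0 : 0 ≤ D := (norm_nonneg _).trans (hD 0)
  have hcs : HasCompactSupport φ := hS.of_isClosed_subset (isClosed_tsupport φ) hφS
  have hdf : Continuous (fderiv ℝ f) := hf.continuous_fderiv (by simp)
  have hdφ : Continuous (fderiv ℝ φ) := hφ.continuous_fderiv (by simp)
  set h : E n → E n := fun y => f y - a - L y with hh
  have hhs : ContDiff ℝ (⊤ : ℕ∞) h := (hf.sub contDiff_const).sub L.contDiff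
  have hfd : ∀ y, fderiv ℝ h y = fderiv ℝ f y - L := by
    intro y
    have h1 : DifferentiableAt ℝ f y := hf.differentiable (by simp) y
    have h2 : HasFDerivAt h (fderiv ℝ f y - 0 - L) y :=
      (h1.hasFDerivAt.sub (hasFDerivAt_const a y)).sub L.hasFDerivAt
    rw [h2.fderiv, sub_zero]
  -- the mixed maps
  set g : ℕ → E n → E n := fun t y => a + L y + Qt n t (h y) with hg
  have hgs : ∀ t, ContDiff ℝ (⊤ : ℕ∞) (g t) := fun t =>
    (contDiff_const.add L.contDiff).add ((Qt n t).contDiff.comp hhs)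
  have hgd : ∀ t y, fderiv ℝ (g t) y = mx L t (fderiv ℝ f y) := by
    intro t y
    have h1 : HasFDerivAt h (fderiv ℝ f y - L) y := by
      have := (hhs.differentiable (by simp) y).hasFDerivAt
      rwa [hfd] at this
    have h2 : HasFDerivAt (g t) (0 + L + (Qt n t).comp (fderiv ℝ f y - L)) y :=
      ((hasFDerivAt_const a y).add L.hasFDerivAt).add ((Qt n t).hasFDerivAt.comp y h1)
    rw [h2.fderiv, zero_add]
    rfl
  have hmxc : ∀ t, Continuous (fun y => mx L t (fderiv ℝ f y)) := by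
    intro t
    unfold mx
    exact continuous_const.add (continuous_const.clm_comp (hdf.sub continuous_const))
  -- one coordinate
  have key : ∀ t : Fin n, ∫ y in S, φ y *
      ((fderiv ℝ f y - L) (adjV (mx L ((t : ℕ) + 1) (fderiv ℝ f y)) (eb t))) t =
      - ∫ y in S, (h y) t * fderiv ℝ φ y (adjV (mx L ((t : ℕ) + 1) (fderiv ℝ f y)) (eb t)) := by
    intro t
    set N : E n → Mt n := fun y => mx L ((t : ℕ) + 1) (fderiv ℝ f y) with hN
    have hNc : Continuous N := hmxc _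
    set u : E n → E n := fun y => adjV (N y) (eb t) with hu
    have huc : Continuous u := (hadj.comp hNc).clm_apply continuous_const
    have hht : ContDiff ℝ (⊤ : ℕ∞) (fun y => (h y) t) :=
      (EuclideanSpace.proj t : E n →L[ℝ] ℝ).contDiff.comp hhs
    have hφh : ContDiff ℝ (⊤ : ℕ∞) (fun y => φ y * (h y) t) := hφ.mul hht
    have h1 := nlf n (g ((t : ℕ) + 1)) (fun _ => eb t) (fun y => φ y * (h y) t) hn (hgs _)
      contDiff_const hφh hcs.mul_right
    have h2 : (fun y => φ y * (h y) t * dv (fun _ => eb t) (g ((t : ℕ) + 1) y) *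
        (fderiv ℝ (g ((t : ℕ) + 1)) y).det) = fun _ => 0 := by
      funext y
      rw [dv_const]
      ring
    rw [h2, integral_zero, neg_zero] at h1
    have h3 : ∀ y, fderiv ℝ (fun y => φ y * (h y) t) y (u y) =
        φ y * ((fderiv ℝ f y - L) (u y)) t + (h y) t * fderiv ℝ φ y (u y) := by
      intro y
      have e1 : HasFDerivAt φ (fderiv ℝ φ y) y := (hφ.differentiable (by simp) y).hasFDerivAt
      have e2 : HasFDerivAt (fun y => (h y) t)
          ((EuclideanSpace.proj t : E n →L[ℝ] ℝ).comp (fderiv ℝ f y - L)) y := by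
        have := (hhs.differentiable (by simp) y).hasFDerivAt
        rw [hfd] at this
        exact (EuclideanSpace.proj t : E n →L[ℝ] ℝ).hasFDerivAt.comp y this
      have e3 : HasFDerivAt (fun y => φ y * (h y) t) (φ y • ((EuclideanSpace.proj t :
          E n →L[ℝ] ℝ).comp (fderiv ℝ f y - L)) + (h y) t • fderiv ℝ φ y) y := e1.mul e2
      rw [e3.fderiv]
      rfl
    have h4 : ∫ y, (φ y * ((fderiv ℝ f y - L) (u y)) t + (h y) t * fderiv ℝ φ y (u y)) = 0 := by
      rw [← h1]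
      refine integral_congr_ae (Eventually.of_forall (fun y => ?_))
      show _ = inner ℝ (adjV (fderiv ℝ (g ((t : ℕ) + 1)) y) (eb t))
        (gr (fderiv ℝ (fun y => φ y * (h y) t) y))
      rw [inner_gr', hgd]
      exact (h3 y).symm
    have c1 : Continuous (fun y => φ y * ((fderiv ℝ f y - L) (u y)) t) := by
      have e : Continuous (fun y => (fderiv ℝ f y - L) (u y)) :=
        (hdf.sub continuous_const).clm_apply huc
      exact hφ.continuous.mul ((EuclideanSpace.proj t : E n →L[ℝ] ℝ).continuous.comp e)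
    have c2 : Continuous (fun y => (h y) t * fderiv ℝ φ y (u y)) :=
      hht.continuous.mul (hdφ.clm_apply huc)
    have s1 : ∀ y, y ∉ S → φ y * ((fderiv ℝ f y - L) (u y)) t = 0 := by
      intro y hy
      rw [image_eq_zero_of_notMem_tsupport (fun hc => hy (hφS hc)), zero_mul]
    have s2 : ∀ y, y ∉ S → (h y) t * fderiv ℝ φ y (u y) = 0 := by
      intro y hy
      have : fderiv ℝ φ y = 0 := by
        by_contra hc
        exact hy (hφS (support_fderiv_subset ℝ hc))
      rw [this, ContinuousLinearMap.zero_apply, mul_zero]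
    have i1 : Integrable (fun y => φ y * ((fderiv ℝ f y - L) (u y)) t) :=
      c1.integrable_of_hasCompactSupport hcs.mul_right
    have i2 : Integrable (fun y => (h y) t * fderiv ℝ φ y (u y)) :=
      c2.integrable_of_hasCompactSupport (HasCompactSupport.intro hS s2)
    rw [integral_add i1 i2] at h4
    rw [setIntegral_eq_integral_of_forall_compl_eq_zero s1,
      setIntegral_eq_integral_of_forall_compl_eq_zero s2]
    linarith
  -- the sum
  have hI : ∀ t : Fin n, IntegrableOn (fun y => φ y *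
      ((fderiv ℝ f y - L) (adjV (mx L ((t : ℕ) + 1) (fderiv ℝ f y)) (eb t))) t) S := by
    intro t
    have huc : Continuous (fun y => adjV (mx L ((t : ℕ) + 1) (fderiv ℝ f y)) (eb t)) :=
      (hadj.comp (hmxc _)).clm_apply continuous_const
    have e : Continuous (fun y => (fderiv ℝ f y - L)
        (adjV (mx L ((t : ℕ) + 1) (fderiv ℝ f y)) (eb t))) :=
      (hdf.sub continuous_const).clm_apply huc
    exact (hφ.continuous.mul ((EuclideanSpace.proj t : E n →L[ℝ] ℝ).continuous.comp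
      e)).continuousOn.integrableOn_compact hS
  have hsum : ∫ y in S, φ y * ((fderiv ℝ f y).det - L.det) = ∑ t : Fin n, ∫ y in S, φ y *
      ((fderiv ℝ f y - L) (adjV (mx L ((t : ℕ) + 1) (fderiv ℝ f y)) (eb t))) t := by
    rw [← integral_finsetSum _ (fun t _ => hI t)]
    refine integral_congr_ae (Eventually.of_forall (fun y => ?_))
    simp only
    rw [det_sub, Finset.mul_sum]
  rw [hsum]
  have hJc : Continuous (fun y => (‖fderiv ℝ f y‖ + ‖L‖) ^ (n - 1)) :=
    (hdf.norm.add continuous_const).pow _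
  have hJ : IntegrableOn (fun y => (‖fderiv ℝ f y‖ + ‖L‖) ^ (n - 1)) S :=
    hJc.continuousOn.integrableOn_compact hS
  have hone : ∀ t : Fin n, |∫ y in S, φ y *
      ((fderiv ℝ f y - L) (adjV (mx L ((t : ℕ) + 1) (fderiv ℝ f y)) (eb t))) t| ≤
      δ * D * (C * 2 ^ (n - 1)) * ∫ y in S, (‖fderiv ℝ f y‖ + ‖L‖) ^ (n - 1) := by
    intro t
    rw [key t, abs_neg, ← integral_const_mul, ← Real.norm_eq_abs]
    refine norm_integral_le_of_norm_le (hJ.const_mul _) ?_
    rw [ae_restrict_iff' hS.measurableSet]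
    refine Eventually.of_forall (fun y hy => ?_)
    rw [norm_mul, Real.norm_eq_abs]
    have b1 : |(h y) t| ≤ δ := (abs_coord_le _ _).trans (hδ y hy)
    have b2 : ‖fderiv ℝ φ y (adjV (mx L ((t : ℕ) + 1) (fderiv ℝ f y)) (eb t))‖ ≤
        D * ((C * 2 ^ (n - 1)) * (‖fderiv ℝ f y‖ + ‖L‖) ^ (n - 1)) := by
      refine (ContinuousLinearMap.le_opNorm _ _).trans ?_
      refine mul_le_mul (hD y) ?_ (norm_nonneg _) hD0
      refine (ContinuousLinearMap.le_opNorm _ _).trans ?_
      have e1 : ‖(eb t : E n)‖ = 1 := by simp [eb]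
      rw [e1, mul_one]
      refine (hbd _).trans ?_
      have e2 : ‖mx L ((t : ℕ) + 1) (fderiv ℝ f y)‖ ^ (n - 1) ≤
          2 ^ (n - 1) * (‖fderiv ℝ f y‖ + ‖L‖) ^ (n - 1) := by
        rw [← mul_pow]
        exact pow_le_pow_left₀ (norm_nonneg _) (norm_mx_le _ _ _) _
      calc C * ‖mx L ((t : ℕ) + 1) (fderiv ℝ f y)‖ ^ (n - 1) ≤
            C * (2 ^ (n - 1) * (‖fderiv ℝ f y‖ + ‖L‖) ^ (n - 1)) :=
            mul_le_mul_of_nonneg_left e2 hC.le
        _ = _ := by ring
    calc |(h y) t| * ‖fderiv ℝ φ y (adjV (mx L ((t : ℕ) + 1) (fderiv ℝ f y)) (eb t))‖ ≤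
          δ * (D * ((C * 2 ^ (n - 1)) * (‖fderiv ℝ f y‖ + ‖L‖) ^ (n - 1))) :=
          mul_le_mul b1 b2 (norm_nonneg _) hδ0
      _ = δ * D * (C * 2 ^ (n - 1)) * (‖fderiv ℝ f y‖ + ‖L‖) ^ (n - 1) := by ring
  refine (Finset.abs_sum_le_sum_abs _ _).trans ?_
  refine (Finset.sum_le_sum (fun t _ => hone t)).trans (le_of_eq ?_)
  rw [Finset.sum_const, Finset.card_univ, Fintype.card_fin, nsmul_eq_mul]
  ring

theorem pow_le_aux (x : ℝ) (hx : 0 ≤ x) (m : ℕ) : (1 + x) ^ m ≤ 2 ^ m * (1 + x ^ m) := by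
  rcases le_total x 1 with h | h
  · have h1 : (1 + x) ^ m ≤ 2 ^ m := pow_le_pow_left₀ (by linarith) (by linarith) _
    have h2 : (0 : ℝ) ≤ 2 ^ m * x ^ m := by positivity
    nlinarith
  · have h1 : (1 + x) ^ m ≤ (2 * x) ^ m := pow_le_pow_left₀ (by linarith) (by linarith) _
    rw [mul_pow] at h1
    have h2 : (0 : ℝ) ≤ 2 ^ m := by positivity
    nlinarith

theorem nld (nlf : NLFStmt) (adj : ADJStmt) (lim : LIMStmt) : NLDStmt := by
  intro n hn
  obtain ⟨C, hC, _, hadj, hdet, hbd, hdbd, _⟩ := adj n hn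
  have hn0 : (0 : ℝ) < n := by exact_mod_cast hn
  refine ⟨n * (C * 2 ^ (n - 1)), by positivity, ?_⟩
  intro Ω S f F φ L a δ D hΩ hsob hS hSΩ hφ hφS hD hδ
  rcases S.eq_empty_or_nonempty with rfl | ⟨y₀, hy₀⟩
  · simp
  have hδ0 : 0 ≤ δ := (norm_nonneg _).trans (hδ y₀ hy₀)
  have hD0 : 0 ≤ D := (norm_nonneg _).trans (hD 0)
  obtain ⟨hFm, hFi, f', hf's, hf'u, hf'l⟩ := hsob S hSΩ hS
  -- limits
  obtain ⟨B₀, hB₀⟩ : ∃ B₀ : ℝ, ∀ y, |φ y| ≤ B₀ := by
    have hcs : HasCompactSupport φ := hS.of_isClosed_subset (isClosed_tsupport φ) hφS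
    obtain ⟨B, hB⟩ := hφ.continuous.bounded_above_of_compact_support hcs
    exact ⟨B, fun y => by simpa using hB y⟩
  have hB₀0 : 0 ≤ B₀ := (abs_nonneg _).trans (hB₀ 0)
  have l1 := (lim n S f F f' (fun q => φ q.1 * (q.2.2.det - L.det)) hn hS hFm hFi hf's hf'u hf'l
    (by
      refine (hφ.continuous.comp continuous_fst).mul ?_
      exact (hdet.comp (continuous_snd.comp continuous_snd)).sub continuous_const)
    (by
      intro r
      refine ⟨B₀ * (1 + |L.det|), ?_⟩
      intro y _ z _ M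
      simp only
      rw [abs_mul, mul_assoc]
      refine mul_le_mul (hB₀ y) ?_ (abs_nonneg _) hB₀0
      have e1 := abs_sub (M.det) (L.det)
      have e2 := hdbd M
      have e3 : 0 ≤ ‖M‖ ^ n := by positivity
      nlinarith [abs_nonneg L.det, mul_nonneg (abs_nonneg L.det) e3])).2
  have l2 := (lim n S f F f' (fun q => (‖q.2.2‖ + ‖L‖) ^ (n - 1)) hn hS hFm hFi hf's hf'u hf'l
    (by
      exact ((continuous_snd.comp continuous_snd).norm.add continuous_const).pow _)
    (by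
      intro r
      refine ⟨(1 + ‖L‖) ^ n * 2 ^ n, ?_⟩
      intro y _ z _ M
      simp only
      have e0 : 0 ≤ ‖M‖ + ‖L‖ := by positivity
      rw [abs_of_nonneg (pow_nonneg e0 _)]
      have e1 : ‖M‖ + ‖L‖ ≤ (1 + ‖L‖) * (1 + ‖M‖) := by
        nlinarith [norm_nonneg M, norm_nonneg L]
      have e2 : 1 ≤ (1 + ‖L‖) * (1 + ‖M‖) := by
        nlinarith [norm_nonneg M, norm_nonneg L]
      calc (‖M‖ + ‖L‖) ^ (n - 1) ≤ ((1 + ‖L‖) * (1 + ‖M‖)) ^ (n - 1) :=
            pow_le_pow_left₀ e0 e1 _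
        _ ≤ ((1 + ‖L‖) * (1 + ‖M‖)) ^ n := pow_le_pow_right₀ e2 (Nat.sub_le _ _)
        _ = (1 + ‖L‖) ^ n * (1 + ‖M‖) ^ n := mul_pow _ _ _
        _ ≤ (1 + ‖L‖) ^ n * (2 ^ n * (1 + ‖M‖ ^ n)) :=
            mul_le_mul_of_nonneg_left (pow_le_aux _ (norm_nonneg _) _) (by positivity)
        _ = _ := by ring)).2
  -- the estimate with an additional epsilon
  have hε : ∀ ε : ℝ, 0 < ε → |∫ y in S, φ y * ((F y).det - L.det)| ≤
      (n * (C * 2 ^ (n - 1))) * (δ + ε) * D * ∫ y in S, (‖F y‖ + ‖L‖) ^ (n - 1) := by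
    intro ε hε
    refine le_of_tendsto_of_tendsto l1.abs (l2.const_mul _) ?_
    filter_upwards [Metric.tendstoUniformlyOn_iff.1 hf'u ε hε] with k hk
    refine smooth_case nlf hC hadj hbd hn (a := a) (hf's k) hS hφ hφS hD ?_ (by linarith)
    intro y hy
    have e1 := hk y hy
    rw [dist_comm, dist_eq_norm] at e1
    have e2 : f' k y - a - L y = (f' k y - f y) + (f y - a - L y) := by abel
    rw [e2]
    have := norm_add_le (f' k y - f y) (f y - a - L y)
    linarith [hδ y hy]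
  have hlim : Tendsto (fun ε : ℝ => (n * (C * 2 ^ (n - 1))) * (δ + ε) * D *
      ∫ y in S, (‖F y‖ + ‖L‖) ^ (n - 1)) (𝓝[>] 0) (𝓝 ((n * (C * 2 ^ (n - 1))) * (δ + 0) * D *
      ∫ y in S, (‖F y‖ + ‖L‖) ^ (n - 1))) := by
    refine Tendsto.mono_left ?_ nhdsWithin_le_nhds
    refine Continuous.tendsto ?_ 0
    fun_prop
  rw [add_zero] at hlim
  exact ge_of_tendsto hlim (eventually_nhdsWithin_of_forall (fun ε hε' => hε ε hε'))

end Pool.Agent.SKQ.H97
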