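import Pool.Agent.SKQ.Kit

/-!
# Row LCG (MP_183729_an, squad SKQ): localisation under an affine map
-/

set_option autoImplicit false

namespace Pool.Agent.SKQ.H97

open Metric Set Filter Topology MeasureTheory
open scoped ENNReal
open Helper22QC

variable {n : ℕ}

/-- the affine map -/
noncomputable def af (x : E n) (T : Mt n) (y : E n) : E n := x + T y

theorem hasFDerivAt_af (x : E n) (T : Mt n) (y : E n) : HasFDerivAt (af x T) T y := by
  have h := (hasFDerivAt_const x y).add T.hasFDerivAt
  rw [zero_add] at h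
  exact h

theorem contDiff_af (x : E n) (T : Mt n) : ContDiff ℝ (⊤ : ℕ∞) (af x T) :=
  contDiff_const.add T.contDiff

theorem continuous_af (x : E n) (T : Mt n) : Continuous (af x T) := (contDiff_af x T).continuous

theorem inj_of_det {T : Mt n} (hT : T.det ≠ 0) : Function.Injective T := by
  exact (LinearMap.equivOfDetNeZero (T : E n →ₗ[ℝ] E n) hT).injective

/-- the linear map as an equivalence -/
noncomputable def eqv {T : Mt n} (hT : T.det ≠ 0) : E n ≃L[ℝ] E n :=
  (LinearEquiv.ofInjectiveEndo (T : E n →ₗ[ℝ] E n) (inj_of_det hT)).toContinuousLinearEquiv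

theorem eqv_apply {T : Mt n} (hT : T.det ≠ 0) (y : E n) : eqv hT y = T y := rfl

theorem injective_af (x : E n) {T : Mt n} (hT : T.det ≠ 0) : Function.Injective (af x T) := by
  intro y z h
  exact inj_of_det hT (add_left_cancel h)

theorem isOpen_image_af (x : E n) {T : Mt n} (hT : T.det ≠ 0) {U : Set (E n)} (hU : IsOpen U) :
    IsOpen (af x T '' U) := by
  have h : af x T '' U = ((eqv hT).toHomeomorph.trans (Homeomorph.addLeft x)) '' U := rfl
  rw [h]
  exact (Homeomorph.isOpenMap _) U hU

theorem qmp_af (x : E n) {T : Mt n} (hT : T.det ≠ 0) :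
    Measure.QuasiMeasurePreserving (af x T) volume volume := by
  have h1 : Measure.QuasiMeasurePreserving (fun y : E n => T y) volume volume := by
    refine ⟨T.continuous.measurable, ?_⟩
    have h2 := Measure.map_linearMap_addHaar_eq_smul_addHaar (volume : Measure (E n))
      (f := (T : E n →ₗ[ℝ] E n)) hT
    have h3 : Measure.map (fun y : E n => T y) volume =
        ENNReal.ofReal |(LinearMap.det (T : E n →ₗ[ℝ] E n))⁻¹| • (volume : Measure (E n)) := h2
    rw [h3]
    exact Measure.smul_absolutelyContinuous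
  exact (measurePreserving_add_left volume x).quasiMeasurePreserving.comp h1

theorem det_smul_comp (ρ : ℝ) (M A : Mt n) : (ρ • M.comp A).det = ρ ^ n * (M.det * A.det) := by
  have h1 : (ρ • M.comp A).det = ρ ^ Module.finrank ℝ (E n) * (M.comp A).det :=
    LinearMap.det_smul ρ ((M.comp A : Mt n) : E n →ₗ[ℝ] E n)
  have h2 : (M.comp A).det = M.det * A.det :=
    LinearMap.det_comp (M : E n →ₗ[ℝ] E n) (A : E n →ₗ[ℝ] E n)
  rw [h1, h2, finrank_euclideanSpace, Fintype.card_fin]

theorem det_smul (ρ : ℝ) (A : Mt n) : (ρ • A).det = ρ ^ n * A.det := by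
  have h1 : (ρ • A).det = ρ ^ Module.finrank ℝ (E n) * A.det :=
    LinearMap.det_smul ρ (A : E n →ₗ[ℝ] E n)
  rw [h1, finrank_euclideanSpace, Fintype.card_fin]

/-- composition with an affine map: local Sobolev maps -/
theorem sob_af {Ω Ω' : Set (E n)} {f : E n → E n} {F : E n → Mt n} (h : Sob Ω f F) (x : E n)
    {T : Mt n} (hT : T.det ≠ 0) (hm : ∀ y ∈ Ω', af x T y ∈ Ω) :
    Sob Ω' (fun y => f (af x T y)) (fun y => (F (af x T y)).comp T) := by
  intro C hC hCc
  set ψ := af x T with hψ
  have hψd : ∀ y ∈ C, HasFDerivWithinAt ψ T C y := fun y _ =>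
    (hasFDerivAt_af x T y).hasFDerivWithinAt
  have hinj : InjOn ψ C := (injective_af x hT).injOn
  have hC' : ψ '' C ⊆ Ω := by
    rintro _ ⟨y, hy, rfl⟩
    exact hm y (hC hy)
  obtain ⟨hFm, hFi, f', hf's, hf'u, hf'l⟩ := h (ψ '' C) hC' (hCc.image (continuous_af x T))
  have hqmp : Measure.QuasiMeasurePreserving ψ (volume.restrict C)
      (volume.restrict (ψ '' C)) := (qmp_af x hT).restrict (mapsTo_image ψ C)
  have hFψ : AEStronglyMeasurable (fun y => F (ψ y)) (volume.restrict C) :=
    hFm.comp_quasiMeasurePreserving hqmp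
  have hcompc : Continuous (fun M : Mt n => M.comp T) := by fun_prop
  have hd0 : 0 < |T.det| := abs_pos.2 hT
  have hm1 : AEStronglyMeasurable (fun y => (F (ψ y)).comp T) (volume.restrict C) :=
    hcompc.comp_aestronglyMeasurable hFψ
  have hint : ∀ G : E n → ℝ, IntegrableOn G (ψ '' C) → IntegrableOn (fun y => G (ψ y)) C := by
    intro G hG
    have h1 := (integrableOn_image_iff_integrableOn_abs_det_fderiv_smul volume
      hCc.measurableSet hψd hinj G).1 hG
    have h2 := h1.const_mul |T.det|⁻¹
    refine h2.congr (Eventually.of_forall (fun y => ?_))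
    simp only [smul_eq_mul]
    rw [← mul_assoc, inv_mul_cancel₀ hd0.ne', one_mul]
  refine ⟨hm1, ?_, fun k y => f' k (ψ y), ?_, ?_, ?_⟩
  · have h1 := (hint _ hFi).mul_const (‖T‖ ^ n)
    refine Integrable.mono' h1 (hm1.norm.pow n) (Eventually.of_forall (fun y => ?_))
    rw [Real.norm_of_nonneg (by positivity), ← mul_pow]
    exact pow_le_pow_left₀ (norm_nonneg _) (ContinuousLinearMap.opNorm_comp_le _ _) _
  · intro k
    exact (hf's k).comp (contDiff_af x T)
  · rw [Metric.tendstoUniformlyOn_iff] at hf'u ⊢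
    intro ε hε
    filter_upwards [hf'u ε hε] with k hk y hy
    exact hk (ψ y) (mem_image_of_mem ψ hy)
  · have h1 : ∀ k, ∫ y in C, ‖fderiv ℝ (f' k) (ψ y) - F (ψ y)‖ ^ n =
        |T.det|⁻¹ * ∫ z in ψ '' C, ‖fderiv ℝ (f' k) z - F z‖ ^ n := by
      intro k
      rw [integral_image_eq_integral_abs_det_fderiv_smul volume hCc.measurableSet hψd hinj,
        integral_smul, smul_eq_mul, ← mul_assoc, inv_mul_cancel₀ hd0.ne', one_mul]
    have hdc : ∀ k, Continuous (fderiv ℝ (f' k)) := fun k => (hf's k).continuous_fderiv (by simp)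
    have h2 : ∀ k, IntegrableOn (fun z => ‖fderiv ℝ (f' k) z - F z‖ ^ n) (ψ '' C) := by
      intro k
      refine integrableOn_sub_pow hFm hFi (hdc k).aestronglyMeasurable ?_
      exact ((hdc k).norm.pow n).continuousOn.integrableOn_compact
        (hCc.image (continuous_af x T))
    have h3 : ∀ k, IntegrableOn (fun y => ‖fderiv ℝ (f' k) (ψ y) - F (ψ y)‖ ^ n) C := fun k =>
      hint _ (h2 k)
    have h4 : ∀ k y, fderiv ℝ (fun y => f' k (ψ y)) y = (fderiv ℝ (f' k) (ψ y)).comp T := by
      intro k y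
      have e1 : HasFDerivAt (f' k) (fderiv ℝ (f' k) (ψ y)) (ψ y) :=
        ((hf's k).differentiable (by simp) _).hasFDerivAt
      exact (e1.comp y (hasFDerivAt_af x T y)).fderiv
    refine squeeze_zero (g := fun k => ‖T‖ ^ n *
      (|T.det|⁻¹ * ∫ z in ψ '' C, ‖fderiv ℝ (f' k) z - F z‖ ^ n))
      (fun k => integral_nonneg (fun y => by positivity)) (fun k => ?_) ?_
    · rw [← h1, ← integral_const_mul]
      have hm2 : AEStronglyMeasurable (fun y => fderiv ℝ (fun y => f' k (ψ y)) y -
          (F (ψ y)).comp T) (volume.restrict C) := by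
        have : Continuous (fun y => fderiv ℝ (fun y => f' k (ψ y)) y) :=
          ((hf's k).comp (contDiff_af x T)).continuous_fderiv (by simp)
        exact this.aestronglyMeasurable.sub hm1
      have hpt : ∀ y, ‖fderiv ℝ (fun y => f' k (ψ y)) y - (F (ψ y)).comp T‖ ^ n ≤
          ‖T‖ ^ n * ‖fderiv ℝ (f' k) (ψ y) - F (ψ y)‖ ^ n := by
        intro y
        rw [h4, ← ContinuousLinearMap.sub_comp, ← mul_pow, mul_comm ‖T‖]
        exact pow_le_pow_left₀ (norm_nonneg _) (ContinuousLinearMap.opNorm_comp_le _ _) _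
      refine integral_mono_of_nonneg (Eventually.of_forall (fun y => by positivity))
        ((h3 k).const_mul _) (Eventually.of_forall hpt)
    · have := (hf'l.const_mul |T.det|⁻¹).const_mul (‖T‖ ^ n)
      simpa using this

theorem lcg : LCGStmt := by
  intro n K K' R ρ f F x A hn hG hvol hR hρ hA hmap hqc
  set T : Mt n := ρ • A with hT
  have hTd : T.det = ρ ^ n * A.det := det_smul ρ A
  have hTpos : 0 < T.det := by
    rw [hTd]
    positivity
  have hT0 : T.det ≠ 0 := hTpos.ne'
  have hψ : ∀ y, af x T y = x + ρ • A y := fun y => rfl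
  have hm : ∀ y ∈ ball (0 : E n) R, af x T y ∈ ball (0 : E n) 1 := hmap
  have hFT : ∀ y, (F (af x T y)).comp T = ρ • (F (x + ρ • A y)).comp A := by
    intro y
    rw [hT, ContinuousLinearMap.comp_smul]
    rfl
  have hsub : af x T '' ball 0 R ⊆ ball 0 1 := by
    rintro _ ⟨y, hy, rfl⟩
    exact hm y hy
  have hcont : ContinuousOn f (ball 0 1) := hG.sob.continuousOn isOpen_ball
  have hopen : ∀ V ⊆ ball (0 : E n) 1, IsOpen V → IsOpen (f '' V) := by
    intro V hV hVo
    have h1 : f '' V = ball 0 1 ∩ (Function.invFunOn f (ball 0 1)) ⁻¹' V := by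
      ext z
      constructor
      · rintro ⟨y, hy, rfl⟩
        refine ⟨hG.bij.mapsTo (hV hy), ?_⟩
        rw [mem_preimage, hG.bij.injOn.leftInvOn_invFunOn (hV hy)]
        exact hy
      · rintro ⟨hz, hz2⟩
        exact ⟨_, hz2, hG.bij.surjOn.rightInvOn_invFunOn hz⟩
    rw [h1]
    exact hG.inv.isOpen_inter_preimage isOpen_ball hVo
  have himg : ∀ U : Set (E n), (fun y => f (x + ρ • A y)) '' U = f '' (af x T '' U) := by
    intro U
    rw [image_image]
    rfl
  refine ⟨?_, ?_, ?_, ?_, ?_, ?_⟩
  · have h := sob_af hG.sob x hT0 hm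
    have h2 : (fun y => (F (af x T y)).comp T) = fun y => ρ • (F (x + ρ • A y)).comp A :=
      funext hFT
    rw [h2] at h
    exact h
  · exact hcont.comp (continuous_af x T).continuousOn hm
  · exact fun y hy z hz h => injective_af x hT0 (hG.bij.injOn (hm y hy) (hm z hz) h)
  · intro U hU hUo
    rw [himg]
    exact hopen _ ((image_mono hU).trans hsub) (isOpen_image_af x hT0 hUo)
  · filter_upwards [hqc] with y hy hyR
    rw [norm_smul, Real.norm_of_nonneg hρ.le, mul_pow, det_smul]
    have h1 := hy hyR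
    have h2 : ρ ^ n * ‖(F (x + ρ • A y)).comp A‖ ^ n ≤
        ρ ^ n * (K' * ((F (x + ρ • A y)).comp A).det) :=
      mul_le_mul_of_nonneg_left h1 (by positivity)
    linarith
  · intro g hg
    set U : Set (E n) := af x T '' ball 0 R with hU
    have hUo : IsOpen U := isOpen_image_af x hT0 isOpen_ball
    have hVo : IsOpen (f '' U) := hopen U hsub hUo
    have hVs : f '' U ⊆ ball 0 1 := by
      rintro _ ⟨y, hy, rfl⟩
      exact hG.bij.mapsTo (hsub hy)
    rw [himg]
    have h1 := hvol ((f '' U).indicator g) (hg.indicator hVo.measurableSet)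
    have h2 : ∫⁻ z in ball 0 1, (f '' U).indicator g z = ∫⁻ z in f '' U, g z := by
      rw [lintegral_indicator hVo.measurableSet, Measure.restrict_restrict hVo.measurableSet,
        inter_eq_left.2 hVs]
    have h3 : ∫⁻ y in ball 0 1, (f '' U).indicator g (f y) * ENNReal.ofReal (F y).det =
        ∫⁻ y in U, g (f y) * ENNReal.ofReal (F y).det := by
      have e1 : ∫⁻ y in ball 0 1, (f '' U).indicator g (f y) * ENNReal.ofReal (F y).det =
          ∫⁻ y in ball 0 1, U.indicator (fun y => g (f y) * ENNReal.ofReal (F y).det) y := by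
        refine setLIntegral_congr_fun measurableSet_ball (fun y hy => ?_)
        by_cases hyU : y ∈ U
        · rw [indicator_of_mem (mem_image_of_mem f hyU), indicator_of_mem hyU]
        · rw [indicator_of_notMem hyU, indicator_of_notMem, zero_mul]
          rintro ⟨y', hy', he⟩
          exact hyU (hG.bij.injOn (hsub hy') hy he ▸ hy')
      rw [e1, lintegral_indicator hUo.measurableSet, Measure.restrict_restrict hUo.measurableSet,
        inter_eq_left.2 hsub]
    rw [← h2, ← h1, h3, hU, lintegral_image_eq_lintegral_abs_det_fderiv_mul volume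
      measurableSet_ball (fun y _ => (hasFDerivAt_af x T y).hasFDerivWithinAt)
      (injective_af x hT0).injOn]
    refine lintegral_congr (fun y => ?_)
    have e2 : (ρ • (F (x + ρ • A y)).comp A).det = |T.det| * (F (af x T y)).det := by
      rw [det_smul_comp, abs_of_pos hTpos, hTd, hψ]
      ring
    rw [e2, ENNReal.ofReal_mul (abs_nonneg _), hψ]
    ring

end Pool.Agent.SKQ.H97
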